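import Pool.Agent.P8H56.CF.Defs
import Pool.Agent.N180.CfDefs
import Pool.Agent.R908.MainK
import Pool.Agent.N180.CfI
import Pool.Agent.Helper8K9.AV.Lin

/-!
# Conjugations and stable subspaces
-/

open CategoryTheory AlgebraicGeometry Polynomial

universe u v

namespace Pool.Agent.P8H56.CF

open Pool.Agent.H914 Pool.Agent.H914.VarClass Pool.Agent.H914.VarClass.Obj
  Pool.Agent.H914.WeilCohomology Pool.Agent.R908 Pool.Agent.N180.Cf Pool.Agent.Helper8K9.AV
  Pool.Agent.H281R3.HT

variable {k : Type u} [Field k] {𝒱 : VarClass k} {ops : CycleOps 𝒱}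
  {W : WeilCohomology.{u, v} ops} {X : 𝒱.Obj}

/-- The algebra generated by algebraic correspondences of degree `0` and symmetries. -/
abbrev operators (W : WeilCohomology.{u, v} ops) (X : 𝒱.Obj) :
    Subalgebra W.K (Module.End W.K (W.H X)) :=
  opAlg W.K (operatorSet W X)

lemma operatorSet_eq : operatorSet W X = kCorr W X X.dim ∪ symms W X := rfl

lemma corrSet_eq (p : ℕ) : corrSet W X p = kCorr W X p := rfl

lemma signIn_iff : SignIn (corrSet W X X.dim) (W.gr X) (transcendental W X) ↔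
    SignAlgebraic W X := by
  constructor
  · rintro ⟨_, ⟨γ, hγ, rfl⟩, h⟩
    exact ⟨γ, hγ, h⟩
  · rintro ⟨γ, hγ, h⟩
    exact ⟨_, ⟨γ, hγ, rfl⟩, h⟩

/-- The form as a bilinear map. -/
noncomputable def formL (W : WeilCohomology.{u, v} ops) (X : 𝒱.Obj) (γ : W.H (X.prod X)) :
    W.H X →ₗ[W.K] W.H X →ₗ[W.K] W.K :=
  (LinearMap.mul W.K (W.H X)).compr₂ (W.tr X) |>.compl₂ (W.corr γ)

lemma formL_apply (γ : W.H (X.prod X)) (x y : W.H X) :
    formL W X γ x y = W.tr X (x * W.corr γ y) := rfl

lemma mem_trans_iff {x : W.H X} : x ∈ transcendental W X ↔ NumTriv W X x := by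
  rw [mem_trans]
  constructor
  · intro h j g hg
    induction hg using Submodule.span_induction with
    | mem g hg =>
      obtain ⟨p, hp, z, hz, rfl⟩ := hg
      exact h p _ ⟨z, hz, rfl⟩
    | zero => rw [mul_zero, map_zero]
    | add a b _ _ ha hb => rw [mul_add, map_add, ha, hb, add_zero]
    | smul c a _ ha => rw [mul_smul_comm, map_smul, ha, smul_zero]
  · intro h j c hc
    exact h j c (alg_mem_span hc)

/-- Combinations of correspondences preserve the transcendental cohomology. -/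
lemma kop_trans {δ : ℤ} {φ : W.H X →ₗ[W.K] W.H X} (hφ : φ ∈ KOp W X X δ) {x : W.H X}
    (hx : x ∈ transcendental W X) : φ x ∈ transcendental W X :=
  mem_trans_iff.2 (NumTriv.op hφ (mem_trans_iff.1 hx))

lemma kCorr_mem {ψ : Module.End W.K (W.H X)} (h : ⇑ψ ∈ kCorr W X X.dim) : ψ ∈ KOp W X X 0 := by
  obtain ⟨γ, hγ, hψ⟩ := h
  have h1 : W.corr γ = ψ := DFunLike.coe_injective hψ
  rw [← h1]
  exact mem_KOp_iff.2 ⟨γ, by rw [add_zero]; exact hγ, rfl⟩

/-- Subspaces stable under correspondences and symmetries are stable under the algebra. -/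
lemma operators_induction {N : Submodule W.K (W.H X)}
    (h1 : ∀ ψ : Module.End W.K (W.H X), ⇑ψ ∈ kCorr W X X.dim → ∀ x ∈ N, ψ x ∈ N)
    (h2 : ∀ S : Symmetry W, ∀ x ∈ N, S.σ X x ∈ N) {c : Module.End W.K (W.H X)}
    (hc : c ∈ operators W X) : ∀ x ∈ N, c x ∈ N := by
  induction hc using Algebra.adjoin_induction with
  | mem ψ hψ =>
    rcases hψ with hψ | ⟨S, hS⟩
    · exact h1 ψ hψ
    · intro x hx
      rw [← hS]
      exact h2 S x hx
  | algebraMap r => exact fun x hx => N.smul_mem r hx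
  | add a b _ _ ha hb => exact fun x hx => N.add_mem (ha x hx) (hb x hx)
  | mul a b _ _ ha hb => exact fun x hx => ha _ (hb x hx)

lemma operators_gr {c : Module.End W.K (W.H X)} (hc : c ∈ operators W X) {i : ℕ} {x : W.H X}
    (hx : x ∈ W.gr X i) : c x ∈ W.gr X i := by
  refine operators_induction (N := W.gr X i) ?_ ?_ hc x hx
  · intro ψ hψ x hx
    have h2 := KOp.isHom (kCorr_mem hψ) i x (by rw [grZ_natCast]; exact hx)
    rw [mul_zero, add_zero, grZ_natCast] at h2
    exact h2
  · exact fun S x hx => ((S.sim X).gr i x).2 hx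

lemma operators_trans {c : Module.End W.K (W.H X)} (hc : c ∈ operators W X) {x : W.H X}
    (hx : x ∈ transcendental W X) : c x ∈ transcendental W X :=
  operators_induction (N := transcendental W X)
    (fun _ hψ _ hx => kop_trans (kCorr_mem hψ) hx) (fun S _ hx => S.trans hx) hc x hx

lemma operators_transIn {c : Module.End W.K (W.H X)} (hc : c ∈ operators W X) {i : ℕ}
    {x : W.H X} (hx : x ∈ transIn W X i) : c x ∈ transIn W X i :=
  ⟨operators_trans hc hx.1, operators_gr hc hx.2⟩

/-- Subspaces stable under the algebraic correspondences of degree `0` and the symmetries are stable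
under all operators. -/
lemma stable_operators {V : Submodule W.K (W.H X)}
    (h : ∀ e ∈ correspondences W X X.dim ∪ {e | ∃ S ∈ (Set.univ : Set (Symmetry W)), e = S.σ X},
      ∀ v ∈ V, e v ∈ V) {c : Module.End W.K (W.H X)} (hc : c ∈ operators W X) {x : W.H X}
    (hx : x ∈ V) : c x ∈ V := by
  refine operators_induction (N := V) ?_ ?_ hc x hx
  · rintro ψ ⟨γ, hγ, hψ⟩ x hx
    rw [← hψ]
    clear hψ
    induction hγ using Submodule.span_induction with
    | mem g hg =>
      obtain ⟨p, hp, z, hz, rfl⟩ := hg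
      obtain rfl : p = X.dim := by exact_mod_cast hp
      exact h _ (Or.inl ⟨z, hz, rfl⟩) x hx
    | zero => rw [corr_zero]; exact V.zero_mem
    | add a b _ _ ha hb => rw [corr_add]; exact V.add_mem ha hb
    | smul r a _ ha => rw [corr_smul]; exact V.smul_mem _ ha
  · exact fun S x hx => h _ (Or.inr ⟨S, Set.mem_univ _, rfl⟩) x hx

/-- **Conjugations make all stable subspaces pair with themselves.** -/
theorem anisotropic_of_conjugation {P Q : ℕ → ℚ[X]} (hP : ∀ i ≤ 2 * X.dim, Squarefree (P i))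
    (h : ∀ i ≤ 2 * X.dim, HasConjugation W X i (P i) (Q i))
    (hloc : ∀ i ≤ 2 * X.dim, LocallyConjugate W.K (P i) (Q i)) :
    Anisotropic (Set.univ : Set (Symmetry W)) X := by
  intro V hV hne hs
  -- a nonzero homogeneous part
  have hproj : ∀ i, ∀ x ∈ V, proj (W.isInternal X) i x ∈ V := fun i =>
    proj_stable (fun x hx => hs _ (Or.inr ⟨gSym W (two_ne_zero : (2 : W.K) ≠ 0), Set.mem_univ _,
      rfl⟩) x hx) i
  obtain ⟨x, hx, hx0⟩ := (Submodule.ne_bot_iff _).1 hne
  obtain ⟨i, hi⟩ : ∃ i, proj (W.isInternal X) i x ≠ 0 := by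
    by_contra hcon
    push Not at hcon
    apply hx0
    have h3 := sum_proj (W.isInternal X) (N := 2 * X.dim + 1)
      (fun i hi => W.gr_eq_bot X i (by omega))
    have h4 := congrArg (fun F : Module.End W.K (W.H X) => F x) h3
    beta_reduce at h4
    rw [LinearMap.sum_apply, Module.End.one_apply] at h4
    rw [← h4]
    exact Finset.sum_eq_zero fun i _ => hcon i
  have hi2 : i ≤ 2 * X.dim := by
    by_contra hcon
    have h1 := proj_mem (W.isInternal X) i x
    rw [W.gr_eq_bot X i (by omega), Submodule.mem_bot] at h1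
    exact hi h1
  obtain ⟨C, hC, θ, hθ, hnd, hss, hcom⟩ := h i hi2
  obtain ⟨p, γ, hγ, rfl⟩ := Set.mem_iUnion.1 hθ
  set U : Submodule W.K (W.H X) := V ⊓ W.gr X i with hU
  have hUN : U ≤ transIn W X i := inf_le_inf_right _ hV
  have hU0 : U ≠ ⊥ := by
    intro h0
    apply hi
    have h1 : proj (W.isInternal X) i x ∈ U := ⟨hproj i x hx, proj_mem _ _ _⟩
    rw [h0] at h1
    exact (Submodule.mem_bot _).1 h1
  have hst : StableUnder ((⇑) '' C) U := by
    rintro _ ⟨c, hc, rfl⟩ x hx
    exact ⟨stable_operators hs (hC c hc) hx.1, operators_gr (hC c hc) hx.2⟩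
  obtain ⟨x, hx, y, hy, hxy⟩ := pairs_of_commutant (B := formL W X γ) (hP i hi2)
    (by rintro _ ⟨c, -, rfl⟩ x y; exact map_add _ _ _) hnd hss hcom (hloc i hi2) hUN hU0 hst
  -- a single correspondence
  by_contra hcon
  push Not at hcon
  apply hxy
  rw [formL_apply]
  clear hnd hcom hxy hθ
  induction hγ using Submodule.span_induction with
  | mem g hg =>
    obtain ⟨q, hq, z, hz, rfl⟩ := hg
    exact hcon _ (Set.mem_iUnion.2 ⟨q, z, hz, rfl⟩) x hx.1 y hy.1
  | zero => rw [corr_zero, LinearMap.zero_apply, mul_zero, map_zero]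
  | add a b _ _ ha hb => rw [corr_add, LinearMap.add_apply, mul_add, map_add, ha, hb, add_zero]
  | smul r a _ ha => rw [corr_smul, LinearMap.smul_apply, mul_smul_comm, map_smul, ha, smul_zero]

lemma kop_sup {δ : ℤ} {φ : W.H X →ₗ[W.K] W.H X} (hφ : φ ∈ KOp W X X δ) {x : W.H X}
    (hx : x ∈ ⨆ p : ℕ, spanCycles W X p) : φ x ∈ ⨆ p : ℕ, spanCycles W X p := by
  induction hx using Submodule.iSup_induction' with
  | mem p x hx =>
    have h1 := KOp.map_span hφ hx
    by_cases hp : 0 ≤ (p : ℤ) + δ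
    · obtain ⟨q, hq⟩ := Int.eq_ofNat_of_zero_le hp
      rw [hq] at h1
      exact Submodule.mem_iSup_of_mem q h1
    · have h2 : spanCycles W X ((p : ℤ) + δ) = ⊥ := by
        rw [spanCycles, Submodule.span_eq_bot]
        rintro c ⟨q, hq, -⟩
        omega
      rw [h2, Submodule.mem_bot] at h1
      rw [h1]
      exact Submodule.zero_mem _
  | zero => rw [map_zero]; exact Submodule.zero_mem _
  | add x y _ _ hx hy => rw [map_add]; exact Submodule.add_mem _ hx hy

lemma sym_sup (S : Symmetry W) {x : W.H X} (hx : x ∈ ⨆ p : ℕ, spanCycles W X p) :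
    S.σ X x ∈ ⨆ p : ℕ, spanCycles W X p := by
  induction hx using Submodule.iSup_induction' with
  | mem p x hx => exact Submodule.mem_iSup_of_mem p (S.span hx)
  | zero => rw [map_zero]; exact Submodule.zero_mem _
  | add x y _ _ hx hy => rw [map_add]; exact Submodule.add_mem _ hx hy

lemma tr_sup {x g : W.H X} (h : NumTriv W X x) (hg : g ∈ ⨆ p : ℕ, spanCycles W X p) :
    W.tr X (x * g) = 0 := by
  induction hg using Submodule.iSup_induction' with
  | mem p g hg => exact h p g hg
  | zero => rw [mul_zero, map_zero]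
  | add a b _ _ ha hb => rw [mul_add, map_add, ha, hb, add_zero]

/-- **Varieties all stable subspaces of which pair with themselves satisfy the conjecture D.** -/
theorem homEqNum_of_anisotropic' {𝒢 : Set (Symmetry W)} (h : Anisotropic 𝒢 X) :
    HomEqNum W X := by
  set U : Submodule W.K (W.H X) := (⨆ p : ℕ, spanCycles W X p) ⊓ transcendental W X with hU
  have hzero : U = ⊥ := by
    by_contra hne
    obtain ⟨θ, hθ, x, hx, y, hy, hxy⟩ := h U inf_le_right hne (by
      rintro e (he | ⟨S, -, rfl⟩) v hv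
      · obtain ⟨δ, θ, hθ, he, -⟩ := corr_mem_correspondences he
        rw [← he]
        exact ⟨kop_sup hθ hv.1, kop_trans hθ hv.2⟩
      · exact ⟨sym_sup S hv.1, S.trans hv.2⟩)
    obtain ⟨p, hp⟩ := Set.mem_iUnion.1 hθ
    obtain ⟨δ, θ', hθ', he, -⟩ := corr_mem_correspondences hp
    apply hxy
    change W.tr X (x * θ y) = 0
    rw [← he]
    exact tr_sup (mem_trans_iff.1 hx.2) (kop_sup hθ' hy.1)
  intro j hj z hz hdeg
  have h1 : W.cl X z ∈ U := by
    refine ⟨Submodule.mem_iSup_of_mem j (Submodule.subset_span ⟨j, rfl, z, hz, rfl⟩), ?_⟩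
    refine mem_trans.2 ?_
    rintro l c ⟨w, hw, rfl⟩
    rw [bil_apply]
    by_cases hl : l = X.dim - j
    · subst hl
      have h2 := ops.mul_mem hz hw
      rw [show j + (X.dim - j) = X.dim by omega] at h2
      rw [← W.cl_mul, W.tr_cl h2, hdeg w hw, Rat.cast_zero]
    · exact W.tr_eq_zero (W.mul_mem (W.cl_mem hz) (W.cl_mem hw)) (by omega)
  rw [hzero] at h1
  exact (Submodule.mem_bot _).1 h1

/-- **The standard conjectures from conjugations.** -/
theorem standard_of_anisotropic {S : Set 𝒱.Obj} (hs : ∀ X ∈ S, SignAlgebraic W X)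
    (h : ∀ X ∈ S, Anisotropic (Set.univ : Set (Symmetry W)) X) : StandardConjecturesFor W S := by
  intro 𝒴 h𝒴
  exact (anisotropic_iff Set.univ hs h).1 ⟨fun X hX => homEqNum_of_anisotropic' (h X hX), h𝒴⟩

end Pool.Agent.P8H56.CF
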