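import Mathlib

/-!
# The double commutant of a semisimple operator
-/

open Polynomial Module

namespace Pool.Agent.P8H56.CF

variable {K M : Type*} [Field K] [AddCommGroup M] [Module K M]

/-- The operators commuting with `F`, as linear maps over the polynomial ring. -/
noncomputable def fromEnd (F : Module.End K M) (z : Module.End K[X] (AEval' F)) :
    Module.End K M :=
  (AEval'.of F).symm.toLinearMap ∘ₗ (z.restrictScalars K) ∘ₗ (AEval'.of F).toLinearMap

lemma fromEnd_apply (F : Module.End K M) (z : Module.End K[X] (AEval' F)) (x : M) :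
    fromEnd F z x = (AEval'.of F).symm (z (AEval'.of F x)) := rfl

lemma fromEnd_comm (F : Module.End K M) (z : Module.End K[X] (AEval' F)) (x : M) :
    fromEnd F z (F x) = F (fromEnd F z x) := by
  rw [fromEnd_apply, fromEnd_apply, ← AEval'.X_smul_of, map_smul, AEval'.of_symm_X_smul]

/-- A linear map over the polynomial ring. -/
noncomputable def toEnd (F : Module.End K M) (z : Module.End K M)
    (hz : ∀ x, z (F x) = F (z x)) : Module.End K[X] (AEval' F) :=
  LinearMap.ofAEval F ((AEval'.of F).toLinearMap ∘ₗ z) (by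
    intro x
    rw [LinearMap.comp_apply, LinearMap.comp_apply]
    change AEval'.of F (z (F x)) = X • AEval'.of F (z x)
    rw [hz, AEval'.X_smul_of])

lemma toEnd_apply (F : Module.End K M) (z : Module.End K M) (hz : ∀ x, z (F x) = F (z x))
    (x : M) : toEnd F z hz (AEval'.of F x) = AEval'.of F (z x) := rfl

/-- **The double commutant of a semisimple operator.** -/
theorem exists_poly_of_bicomm [Module.Finite K M] {F : Module.End K M} (hF : F.IsSemisimple)
    (ψ : Module.End K M)
    (hψ : ∀ z : Module.End K M, (∀ x, z (F x) = F (z x)) → ∀ x, ψ (z x) = z (ψ x)) :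
    ∃ f : K[X], ∀ x, ψ x = aeval F f x := by
  classical
  have hss : IsSemisimpleModule K[X] (AEval' F) := hF
  let f : Module.End (Module.End K[X] (AEval' F)) (AEval' F) :=
    { toFun := fun x => AEval'.of F (ψ ((AEval'.of F).symm x))
      map_add' := fun x y => by rw [map_add, map_add, map_add]
      map_smul' := fun z x => by
        have h1 := hψ (fromEnd F z) (fromEnd_comm F z) ((AEval'.of F).symm x)
        rw [fromEnd_apply, fromEnd_apply, LinearEquiv.apply_symm_apply] at h1
        rw [Module.End.smul_def, h1, LinearEquiv.apply_symm_apply]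
        rfl }
  let b := Module.finBasis K M
  obtain ⟨r, hr⟩ := jacobson_density f (Finset.univ.image fun i => AEval'.of F (b i))
  refine ⟨r, fun x => ?_⟩
  have h1 : ψ = aeval F r := by
    apply b.ext
    intro i
    have h2 := hr (AEval'.of F (b i)) (Finset.mem_image_of_mem _ (Finset.mem_univ i))
    have h3 : f (AEval'.of F (b i)) = AEval'.of F (ψ (b i)) := by
      change AEval'.of F (ψ ((AEval'.of F).symm (AEval'.of F (b i)))) = _
      rw [LinearEquiv.symm_apply_apply]
    rw [h3, ← AEval.of_aeval_smul] at h2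
    exact (AEval'.of F).injective h2
  rw [h1]

/-- **Complements of the subspaces stable under the commutant of a semisimple operator.** -/
theorem exists_compl_of_invariant {F : Module.End K M} (hF : F.IsSemisimple)
    (U : Submodule K M)
    (hU : ∀ z : Module.End K M, (∀ x, z (F x) = F (z x)) → ∀ x ∈ U, z x ∈ U) :
    ∃ U' : Submodule K M,
      (∀ z : Module.End K M, (∀ x, z (F x) = F (z x)) → ∀ x ∈ U', z x ∈ U') ∧
        IsCompl U U' := by
  have hss : IsSemisimpleModule K[X] (AEval' F) := hF
  have hUF : U ∈ Module.End.invtSubmodule F := fun x hx => hU F (fun _ => rfl) x hx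
  let m : Submodule K[X] (AEval' F) := AEval.mapSubmodule K M F ⟨U, hUF⟩
  have hm : ∀ x : M, AEval'.of F x ∈ m ↔ x ∈ U := by
    intro x
    change AEval.of K M F x ∈ _ ↔ _
    rw [AEval.mem_mapSubmodule_apply]
    rw [LinearEquiv.symm_apply_apply]
  have hinv : m.IsFullyInvariant := by
    intro f x hx
    obtain ⟨y, rfl⟩ := (AEval'.of F).surjective x
    rw [Submodule.mem_comap]
    have h1 := hU (fromEnd F f) (fromEnd_comm F f) y ((hm y).1 hx)
    rw [← hm, fromEnd_apply, LinearEquiv.apply_symm_apply] at h1
    exact h1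
  let m0 : fullyInvariantSubmodule K[X] (AEval' F) := ⟨m, hinv⟩
  let s := OrderIso.setIsotypicComponents.symm m0
  let m1 : fullyInvariantSubmodule K[X] (AEval' F) := OrderIso.setIsotypicComponents sᶜ
  have hc : IsCompl m0 m1 := by
    have h1 : m0 = OrderIso.setIsotypicComponents s := by
      rw [OrderIso.apply_symm_apply]
    rw [h1]
    exact OrderIso.isCompl _ isCompl_compl
  have hinf : m ⊓ m1.1 = ⊥ := by
    have h1 := congrArg Subtype.val hc.inf_eq_bot
    exact h1
  have hsup : m ⊔ m1.1 = ⊤ := by
    have h1 := congrArg Subtype.val hc.sup_eq_top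
    exact h1
  let U' : Submodule K M := (m1.1.restrictScalars K).comap (AEval'.of F).toLinearMap
  refine ⟨U', ?_, ?_, ?_⟩
  · intro z hz x hx
    exact m1.2 (toEnd F z hz) hx
  · rw [disjoint_iff, eq_bot_iff]
    rintro x ⟨hx1, hx2⟩
    have h1 : AEval'.of F x ∈ m ⊓ m1.1 := ⟨(hm x).2 hx1, hx2⟩
    rw [hinf, Submodule.mem_bot] at h1
    exact (Submodule.mem_bot K).2 ((AEval'.of F).map_eq_zero_iff.1 h1)
  · rw [codisjoint_iff, eq_top_iff]
    intro x _
    have h1 : AEval'.of F x ∈ m ⊔ m1.1 := by
      rw [hsup]
      exact Submodule.mem_top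
    obtain ⟨y, hy, y', hy', hyy⟩ := Submodule.mem_sup.1 h1
    obtain ⟨u, rfl⟩ := (AEval'.of F).surjective y
    obtain ⟨u', rfl⟩ := (AEval'.of F).surjective y'
    rw [← map_add] at hyy
    rw [← (AEval'.of F).injective hyy]
    exact Submodule.add_mem _ (Submodule.mem_sup_left ((hm u).1 hy))
      (Submodule.mem_sup_right hy')

end Pool.Agent.P8H56.CF
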