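import Pool.Agent.R908.AnisoDefs
import Pool.Agent.H914R2.DDefs
import Pool.Agent.Helper8K9.AV.LinDefs
import Pool.Agent.Helper11K9.Dens.DensDefs
import Pool.Agent.Helper11K9.Dens.PairDefs

/-!
# Conjugations on the transcendental cohomology: definitions
-/

open CategoryTheory AlgebraicGeometry Polynomial

universe u v

namespace Pool.Agent.P8H56.CF

open Pool.Agent.H914 Pool.Agent.H914.VarClass Pool.Agent.H914.VarClass.Obj
  Pool.Agent.H914.WeilCohomology Pool.Agent.R908 Pool.Agent.Helper8K9.AV

section Alg

/-- The complex conjugation induces an endomorphism of the field `L` which does not depend on the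
embedding of `L` in `ℂ`: `L` is totally real or a CM field, if it is a number field. -/
def HasComplexConjugation (L : Type*) [Field L] : Prop :=
  ∃ c : L →+* L, ∀ (τ : L →+* ℂ) (x : L), τ (c x) = starRingEnd ℂ (τ x)

/-- All complex roots of `P` are images of elements of the fields `L j` under embeddings in `ℂ`: each
irreducible factor of `P` has a root in one of the fields `L j`. -/
def RootsIn {J : Type*} (L : J → Type*) [∀ j, Field (L j)] (P : ℚ[X]) : Prop :=
  ∀ z : ℂ, aeval z P = 0 → ∃ (j : J) (τ : L j →+* ℂ) (a : L j), τ a = z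

/-- The algebra of operators over `K` generated by the linear operators in the set `E`. -/
def opAlg (K : Type*) [Field K] {A : Type*} [Ring A] [Algebra K A] (E : Set (A → A)) :
    Subalgebra K (Module.End K A) :=
  Algebra.adjoin K {ψ | ⇑ψ ∈ E}

/-- The operators `a ↦ s (γ * p a)` on `A`, for `γ` in `Γ`. -/
def corrMaps {K : Type*} [Field K] {A : Type*} [Ring A] [Algebra K A] {C : Type*} [Ring C]
    [Algebra K C] (p : A →ₐ[K] C) (s : C →ₗ[K] A) (Γ : Submodule K C) : Set (A → A) :=
  {φ | ∃ γ ∈ Γ, ⇑(corrOp p s γ) = φ}

/-- The part of degree `i` of the subspace `T`. -/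
def partIn {K : Type*} [Field K] {A : Type*} [AddCommGroup A] [Module K A]
    (gr : ℕ → Submodule K A) (T : Submodule K A) (i : ℕ) : Submodule K A :=
  T ⊓ gr i

/-- Some element of `E` is multiplication by `(-1) ^ i` on the part of degree `i` of `T`. -/
def SignIn {K : Type*} [Field K] {A : Type*} [AddCommGroup A] [Module K A] (E : Set (A → A))
    (gr : ℕ → Submodule K A) (T : Submodule K A) : Prop :=
  ∃ φ ∈ E, IsSignOn gr T φ

variable {K : Type*} [Field K] [CharZero K] {A : Type*} [Ring A] [Algebra K A]

/-- The subspace `N` **has a conjugation of type `(P, Q)`**, for the polynomials `P`, `Q` with rational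
coefficients: there are a set `C` of operators in the algebra generated by `E`, and a form
`(x, y) ↦ tr (x * θ y)` with `θ` in `Θ` which is not degenerate on `N`, such that `N` is semisimple
under `C`, and all linear operators on `N` which commute with `C` are polynomials in one operator `e`
with `P(e) = 0`, the adjoint of which for the form is `Q(e)`. -/
def ConjOn (E Θ : Set (A → A)) (tr : A →ₗ[K] K) (N : Submodule K A) (P Q : ℚ[X]) : Prop :=
  ∃ C : Set (Module.End K A), (∀ c ∈ C, c ∈ opAlg K E) ∧ ∃ θ ∈ Θ,
    (∀ x ∈ N, (∀ y ∈ N, tr (x * θ y) = 0) → x = 0) ∧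
    SemisimpleUnder N ((⇑) '' C) ∧ HasCommutant N (fun x y => tr (x * θ y)) ((⇑) '' C) P Q

/-- The endomorphism `φ` of the algebra belongs to the algebra of operators generated by `E`, and it
multiplies `d` by `q` and the orientation by `q ^ n`, like a (geometric) Frobenius element relative to the
field with `q` elements. -/
structure IsFrobeniusLike (E : Set (A → A)) (tr : A →ₗ[K] K) (d : A) (n q : ℕ)
    (φ : A →ₐ[K] A) : Prop where
  mem : φ.toLinearMap ∈ opAlg K E
  pos : 0 < q
  divisor : φ d = (q : K) • d
  tr : ∀ a, tr (φ a) = (q : K) ^ n * tr a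

/-- The operator `φ` maps `N` to itself, with characteristic polynomial `P`. -/
def HasCharpolyOn [Module.Finite K A] (φ : Module.End K A) (N : Submodule K A) (P : ℚ[X]) :
    Prop :=
  ∃ h : ∀ x ∈ N, φ x ∈ N, (φ.restrict h).charpoly = P.map (algebraMap ℚ K)

/-- The operator `φ` satisfies `P(φ) = 0` on `N`, and every linear operator on `N` which commutes with
`φ` agrees on `N` with an element of the algebra of operators generated by `E`. -/
def TateFor (E : Set (A → A)) (N : Submodule K A) (φ : A →ₐ[K] A) (P : ℚ[X]) : Prop :=
  (∀ x ∈ N, aeval φ.toLinearMap (P.map (algebraMap ℚ K)) x = 0) ∧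
    ∀ ψ : Module.End K A, (∀ x ∈ N, ψ x ∈ N) → (∀ x ∈ N, ψ (φ x) = φ (ψ x)) →
      ∃ ψ' ∈ opAlg K E, ∀ x ∈ N, ψ x = ψ' x

/-- There is a Frobenius element `φ`, relative to the field with `q` elements, with the following
properties: there are polynomials `P`, `Q` with rational coefficients such that `P` is squarefree, the
complex roots `z` of `P` lie in the fields `L j` and have absolute value `q ^ (i / 2)`, and `Q(z)` is the
complex conjugate of `z`; and `P` is the characteristic polynomial of `φ` on `N`, or more generally
`P(φ) = 0` on `N` and all operators on `N` commuting with `φ` belong to the algebra of operators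
generated by `E`. -/
def HasFrobenius {J : Type*} (L : J → Type*) [∀ j, Field (L j)] [Module.Finite K A]
    (E : Set (A → A)) (tr : A →ₗ[K] K) (d : A) (n i : ℕ) (N : Submodule K A) : Prop :=
  ∃ (P Q : ℚ[X]) (q : ℕ) (φ : A →ₐ[K] A), IsConjugationPair P Q ∧ RootsIn L P ∧
    (∀ z : ℂ, aeval z P = 0 → ‖z‖ ^ 2 = (q : ℝ) ^ i) ∧ IsFrobeniusLike E tr d n q φ ∧
    (HasCharpolyOn φ.toLinearMap N P ∨ TateFor E N φ P)

end Alg

variable {k : Type u} [Field k] {𝒱 : VarClass k} {ops : CycleOps 𝒱}

/-- The part `T^i(X)` of degree `i` of the transcendental cohomology of `X` (the orthogonal complement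
of the classes of all algebraic cycles). -/
def transIn (W : WeilCohomology.{u, v} ops) (X : 𝒱.Obj) (i : ℕ) : Submodule W.K (W.H X) :=
  partIn (W.gr X) (transcendental W X) i

/-- The operators on `H(X)` given by the `K`-linear combinations of algebraic cycles of codimension `p`
on `X × X`. -/
def corrSet (W : WeilCohomology.{u, v} ops) (X : 𝒱.Obj) (p : ℕ) : Set (W.H X → W.H X) :=
  corrMaps (W.map (fst X X)) (W.push (snd X X)) (spanCycles W (X.prod X) p)

/-- The operators on `H(X)` given by algebraic correspondences of degree `0`, and by the symmetries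
of the Weil cohomology theory (for instance the elements of a Galois group). -/
def operatorSet (W : WeilCohomology.{u, v} ops) (X : 𝒱.Obj) : Set (W.H X → W.H X) :=
  corrSet W X X.dim ∪ {φ | ∃ S : Symmetry W, ⇑(S.σ X) = φ}

/-- `T^i(X)` has a conjugation of type `(P, Q)`, for the algebra of operators generated by the algebraic
correspondences of degree `0` and the symmetries, and a form `(x, y) ↦ tr (x * θ y)` given by an
algebraic correspondence `θ` of any degree. -/
def HasConjugation (W : WeilCohomology.{u, v} ops) (X : 𝒱.Obj) (i : ℕ) (P Q : ℚ[X]) : Prop :=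
  ConjOn (operatorSet W X) (⋃ p, corrSet W X p) (W.tr X) (transIn W X i) P Q

/-- The conjectures D and B of Grothendieck hold for all varieties which are dominated by products of
the varieties in `S` and of varieties in `𝒴`, for **every** set `𝒴` of varieties such that the
conjecture D holds for all products of members of `𝒴`. -/
def StandardConjecturesFor (W : WeilCohomology.{u, v} ops) (S : Set 𝒱.Obj) : Prop :=
  ∀ 𝒴 : Set 𝒱.Obj, (∀ Y, IsProductOf 𝒴 Y → HomEqNum W Y) →
    ∀ Z, IsProductOf (S ∪ 𝒴) Z → ∀ V, Dominates W Z V → HomEqNum W V ∧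
      ∀ D, V.IsCyc 1 D → HardLefschetz W V D → LefschetzB W V D

/-- The varieties `X` such that the operator `(-1) ^ i` on `T^i(X)` is algebraic, and such that all
`T^i(X)` have conjugations of types `(P, Q)`, where `P` is squarefree, `Q(z)` is the complex conjugate of
`z` for all complex roots `z` of `P`, and these roots lie in the fields `L j`. -/
def conjugationVarieties (W : WeilCohomology.{u, v} ops) {J : Type*} (L : J → Type*)
    [∀ j, Field (L j)] : Set 𝒱.Obj :=
  {X | SignIn (corrSet W X X.dim) (W.gr X) (transcendental W X) ∧ ∀ i ≤ 2 * X.dim, ∃ P Q : ℚ[X], IsConjugationPair P Q ∧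
    RootsIn L P ∧ HasConjugation W X i P Q}

/-- The varieties `X` satisfying the conjecture D, the hard Lefschetz theorem and the conjecture B for
some divisor `D`, and such that for all `i` there is a Frobenius element on `T^i(X)` as in
`HasFrobenius`, for the algebra of operators generated by the algebraic correspondences of degree `0` and
the symmetries: for instance, with squarefree characteristic polynomial. -/
def frobeniusVarieties (W : WeilCohomology.{u, v} ops) {J : Type*} (L : J → Type*)
    [∀ j, Field (L j)] : Set 𝒱.Obj :=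
  {X | ∃ D : X.Cycles, X.IsCyc 1 D ∧ HardLefschetz W X D ∧ LefschetzB W X D ∧ HomEqNum W X ∧
    ∀ i ≤ 2 * X.dim, HasFrobenius L (operatorSet W X) (W.tr X) (W.cl X D) X.dim i
      (transIn W X i)}

end Pool.Agent.P8H56.CF
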