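import Pool.Agent.P8H56.CF.Defs
import Pool.Agent.Helper8K9.AV.Dens

/-!
# Number fields with a complex conjugation
-/

open Polynomial NumberField InfinitePlace

namespace Pool.Agent.P8H56.CF

open Pool.Agent.Helper8K9.AV Pool.Agent.Helper11K9.Dens

/-- The local condition is inherited by subfields. -/
theorem locallyConjugate_sub {K K' : Type*} [Field K] [CharZero K] [Field K'] [CharZero K']
    (e : K' →+* K) {P Q : ℚ[X]} (h : LocallyConjugate K P Q) :
    LocallyConjugate K' P Q := by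
  intro x hx
  rw [aeval_map_algebraMap] at hx ⊢
  let _ : Algebra K' (AlgebraicClosure K) := ((algebraMap K (AlgebraicClosure K)).comp e).toAlgebra
  set E : AlgebraicClosure K' →ₐ[K'] AlgebraicClosure K := IsAlgClosed.lift with hE
  have hev : ∀ (f : ℚ[X]) (y : AlgebraicClosure K'), aeval (E y) f = E (aeval y f) :=
    fun f y => aeval_algHom_apply (RingHom.toRatAlgHom E.toRingHom) y f
  have hy : aeval (E x) (P.map (algebraMap ℚ K)) = 0 := by
    rw [aeval_map_algebraMap, hev, hx, map_zero]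
  have h1 := h _ hy
  rw [aeval_map_algebraMap, hev] at h1
  -- the minimal polynomial over the smaller field
  have h2 : ∀ y : AlgebraicClosure K', ∀ f : K'[X],
      aeval (E y) (f.map e) = E (aeval y f) := by
    intro y f
    rw [← aeval_algHom_apply, aeval_def, eval₂_map, aeval_def]
    rfl
  have h3 : aeval (aeval x Q) (minpoly K' x) = 0 := by
    apply E.toRingHom.injective
    change E _ = E _
    rw [map_zero, ← h2]
    have h4 : minpoly K (E x) ∣ (minpoly K' x).map e := by
      refine minpoly.dvd _ _ ?_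
      rw [h2, minpoly.aeval, map_zero]
    obtain ⟨g, hg⟩ := h4
    rw [hg, map_mul, h1, minpoly.aeval, zero_mul]
  have hxi : IsIntegral K' x := Algebra.IsIntegral.isIntegral x
  exact minpoly.eq_of_irreducible_of_monic (minpoly.irreducible hxi) h3 (minpoly.monic hxi)

section One

variable {L : Type*} [Field L] [NumberField L] (pb : PowerBasis ℚ L) {c : L →+* L}
  (hc : ∀ (τ : L →+* ℂ) (x : L), τ (c x) = starRingEnd ℂ (τ x)) {Q : ℚ[X]}
  (hQ : aeval pb.gen Q = c pb.gen)

include hc hQ in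
lemma isConjugationPair_gen : IsConjugationPair (minpoly ℚ pb.gen) Q := by
  refine ⟨(minpoly.irreducible (Algebra.IsIntegral.isIntegral _)).squarefree, fun z hz => ?_⟩
  have h1 := pb.lift_gen z hz
  have h2 : aeval z Q = pb.lift z hz (aeval pb.gen Q) := by
    rw [← aeval_algHom_apply, h1]
  rw [h2, hQ]
  have h3 := hc (pb.lift z hz : L →+* ℂ) pb.gen
  have h4 : (pb.lift z hz : L →+* ℂ) pb.gen = z := h1
  rw [h4] at h3
  exact h3

include hc hQ in
/-- The local condition at a root conjugate to an element of `L`. -/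
theorem local_at {K : Type*} [Field K] [CharZero K]
    (h : LocallyConjugate K (minpoly ℚ pb.gen) Q) {P' Q' : ℚ[X]} (hPQ : IsConjugationPair P' Q')
    (x : AlgebraicClosure K) (hx : aeval x P' = 0)
    (hroot : ∃ (ρ : L →+* ℂ) (a : L), aeval (ρ a) (minpoly ℚ x) = 0) :
    minpoly K x = minpoly K (aeval x Q') := by
  have hxi : IsIntegral ℚ x := by
    have h1 : IsAlgebraic ℚ x := ⟨P', hPQ.1.ne_zero, hx⟩
    exact h1.isIntegral
  obtain ⟨ρ, a, hz⟩ := hroot
  have hdvd : minpoly ℚ x ∣ P' := minpoly.dvd _ _ hx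
  have hzP : aeval (ρ a) P' = 0 := by
    obtain ⟨g, hg⟩ := hdvd
    rw [hg, map_mul, hz, zero_mul]
  have hρe : ∀ f : ℚ[X], ρ (aeval a f) = aeval (ρ a) f := fun f =>
    (aeval_algHom_apply (RingHom.toRatAlgHom ρ) a f).symm
  have ham : aeval a (minpoly ℚ x) = 0 := ρ.injective (by rw [hρe, hz, map_zero])
  have hmin : minpoly ℚ a = minpoly ℚ x :=
    (minpoly.eq_of_irreducible_of_monic (minpoly.irreducible hxi) ham (minpoly.monic hxi)).symm
  obtain ⟨τ, hτ⟩ : ∃ τ : L →ₐ[ℚ] AlgebraicClosure K, τ a = x := by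
    have h1 : x ∈ (minpoly ℚ a).rootSet (AlgebraicClosure K) := by
      rw [hmin, mem_rootSet]
      exact ⟨minpoly.ne_zero hxi, minpoly.aeval _ _⟩
    rw [← Algebra.IsAlgebraic.range_eval_eq_rootSet_minpoly] at h1
    exact h1
  subst hτ
  have hca : aeval a Q' = c a := by
    apply ρ.injective
    rw [hρe, hPQ.2 _ hzP, hc]
  have h0 : aeval (τ pb.gen) ((minpoly ℚ pb.gen).map (algebraMap ℚ K)) = 0 := by
    rw [aeval_map_algebraMap, aeval_algHom_apply, minpoly.aeval, map_zero]
  have h1 := h _ h0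
  rw [aeval_map_algebraMap, aeval_algHom_apply, hQ] at h1
  obtain ⟨σ, hσ⟩ := (show IsConjRoot K (τ pb.gen) (τ (c pb.gen)) from h1).exists_algEquiv
  -- the two embeddings agree
  have hcomp : (σ.toAlgHom.restrictScalars ℚ).comp
      (τ.comp (RingHom.toRatAlgHom c)) = τ := by
    apply pb.algHom_ext
    exact hσ
  have h2 := congrArg (fun F : L →ₐ[ℚ] AlgebraicClosure K => F a) hcomp
  have h3 : σ (τ (c a)) = τ a := h2
  rw [aeval_algHom_apply, hca]
  rw [← h3]
  exact minpoly.algEquiv_eq σ _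

end One

section Family

variable {J : Type} [Fintype J] {L : J → Type} [∀ j, Field (L j)] [∀ j, NumberField (L j)]
  (pb : ∀ j, PowerBasis ℚ (L j))

/-- The number of the pairs of complex conjugate roots is at most the number of the complex
places. -/
lemma pairNumber_le : pairNumber (fun j => minpoly ℚ (pb j).gen) ≤
    ∑ j, nrComplexPlaces (L j) := by
  classical
  set A : Set ℂ := {z : ℂ | 0 < z.im ∧ ∃ j, aeval z (minpoly ℚ (pb j).gen) = 0} with hA
  let g : (Σ j, {w : InfinitePlace (L j) // IsComplex w}) → ℂ := fun s =>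
    if 0 < (s.2.1.embedding (pb s.1).gen).im then s.2.1.embedding (pb s.1).gen else
      starRingEnd ℂ (s.2.1.embedding (pb s.1).gen)
  have hsub : A ⊆ Set.range g := by
    rintro z ⟨hz, j, hj⟩
    set τ : L j →+* ℂ := ((pb j).lift z hj).toRingHom with hτ
    have hτz : τ (pb j).gen = z := (pb j).lift_gen z hj
    have hnr : ¬ ComplexEmbedding.IsReal τ := by
      intro h
      have h1 := congrArg (fun F : L j →+* ℂ => F (pb j).gen) (ComplexEmbedding.isReal_iff.1 h)
      beta_reduce at h1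
      rw [ComplexEmbedding.conjugate_coe_eq, hτz] at h1
      have h2 := Complex.conj_eq_iff_im.1 h1
      linarith
    refine ⟨⟨j, ⟨InfinitePlace.mk τ, isComplex_mk_iff.2 hnr⟩⟩, ?_⟩
    change (if 0 < ((InfinitePlace.mk τ).embedding (pb j).gen).im then
      (InfinitePlace.mk τ).embedding (pb j).gen else
        starRingEnd ℂ ((InfinitePlace.mk τ).embedding (pb j).gen)) = z
    rcases embedding_mk_eq τ with h | h
    · rw [h, hτz, if_pos hz]
    · rw [h, ComplexEmbedding.conjugate_coe_eq, hτz, if_neg, Complex.conj_conj]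
      rw [Complex.conj_im]
      linarith
  have h1 : A.ncard ≤ (Set.range g).ncard := Set.ncard_le_ncard hsub (Set.finite_range g)
  have h2 : (Set.range g).ncard ≤ Fintype.card (Σ j, {w : InfinitePlace (L j) // IsComplex w}) := by
    rw [← Set.image_univ]
    refine (Set.ncard_image_le (Set.finite_univ)).trans ?_
    rw [Set.ncard_univ, Nat.card_eq_fintype_card]
  rw [Fintype.card_sigma] at h2
  have h4 : pairNumber (fun j => minpoly ℚ (pb j).gen) = A.ncard := rfl
  rw [h4]
  refine (h1.trans h2).trans (le_of_eq ?_)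
  refine Finset.sum_congr rfl fun j _ => ?_
  exact Fintype.card_congr' rfl

/-- Fields isomorphic to the `ℓ`-adic numbers. -/
lemma exists_fields : ∃ (K : ℕ → Type) (_ : ∀ ℓ, Field (K ℓ)) (_ : ∀ ℓ, CharZero (K ℓ)),
    ∀ (ℓ : ℕ) [Fact ℓ.Prime], Nonempty (K ℓ ≃+* ℚ_[ℓ]) := by
  have h : ∀ ℓ : ℕ, ∃ (K : Type) (_ : Field K) (_ : CharZero K),
      ∀ [Fact ℓ.Prime], Nonempty (K ≃+* ℚ_[ℓ]) := by
    intro ℓ
    by_cases hℓ : ℓ.Prime
    · have := Fact.mk hℓ
      exact ⟨ℚ_[ℓ], inferInstance, inferInstance, ⟨RingEquiv.refl _⟩⟩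
    · exact ⟨ℚ, inferInstance, inferInstance, fun {h'} => absurd h'.out hℓ⟩
  choose K h1 h2 h3 using h
  exact ⟨K, h1, h2, fun ℓ _ => h3 ℓ⟩

variable (L) in
/-- **The primes which are good for all polynomials with roots in the fields `L j`.** -/
theorem exists_good (hc : ∀ j, HasComplexConjugation (L j)) :
    ∃ S : Set ℕ, HasLowerDensity S ((1 / 2 : ℝ) ^ (∑ j, nrComplexPlaces (L j))) ∧
      ∀ (K : Type*) [Field K] [CharZero K],
        ((∃ ℓ ∈ S, ∃ _ : Fact ℓ.Prime, Nonempty (K →+* ℚ_[ℓ])) ∨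
          ∀ j, nrComplexPlaces (L j) = 0) → ∀ P Q : ℚ[X], IsConjugationPair P Q → RootsIn L P →
          LocallyConjugate K P Q := by
  classical
  choose c hc using hc
  set pb : ∀ j, PowerBasis ℚ (L j) := fun j => Field.powerBasisOfFiniteOfSeparable ℚ (L j) with hpb
  choose Q hQ using fun j => (pb j).exists_eq_aeval' (c j (pb j).gen)
  have hpair : ∀ j, IsConjugationPair (minpoly ℚ (pb j).gen) (Q j) := fun j =>
    isConjugationPair_gen (pb j) (hc j) (hQ j).symm
  obtain ⟨Kf, _, _, hKf⟩ := exists_fields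
  refine ⟨{ℓ | ∀ [Fact ℓ.Prime], ∀ j, LocallyConjugate (Kf ℓ) (minpoly ℚ (pb j).gen) (Q j)},
    ?_, ?_⟩
  · have h1 := density_conj hpair 0 Kf (fun ℓ _ _ => hKf ℓ)
      {ℓ | ∀ [Fact ℓ.Prime], ∀ j, LocallyConjugate (Kf ℓ) (minpoly ℚ (pb j).gen) (Q j)}
      (fun ℓ _ _ h _ => h)
    exact h1.mono (pow_le_pow_of_le_one (by norm_num) (by norm_num) (pairNumber_le pb))
  · intro K _ _ hK P' Q' hPQ hroot x hx
    -- the local condition for the fields `L j`
    have hloc : ∀ j, LocallyConjugate K (minpoly ℚ (pb j).gen) (Q j) := by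
      intro j
      rcases hK with ⟨ℓ, hℓ, _, ⟨e⟩⟩ | h0
      · obtain ⟨e'⟩ := hKf ℓ
        exact locallyConjugate_sub ((e'.symm : ℚ_[ℓ] →+* Kf ℓ).comp e) (hℓ j)
      · refine local_of_real (hpair j) (fun z hz => ?_) _
        by_contra him
        have hcard := card_complex_embeddings (L j)
        rw [h0 j, mul_zero] at hcard
        have hemp := Fintype.card_eq_zero_iff.1 hcard
        refine hemp.false ⟨((pb j).lift z hz).toRingHom, fun h => ?_⟩
        have h1 := congrArg (fun F : L j →+* ℂ => F (pb j).gen)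
          (ComplexEmbedding.isReal_iff.1 h)
        beta_reduce at h1
        have h2 : ((pb j).lift z hz).toRingHom (pb j).gen = z := (pb j).lift_gen z hz
        rw [ComplexEmbedding.conjugate_coe_eq, h2] at h1
        exact him (Complex.conj_eq_iff_im.1 h1)
    rw [aeval_map_algebraMap] at hx ⊢
    have hxi : IsIntegral ℚ x := by
      have h1 : IsAlgebraic ℚ x := ⟨P', hPQ.1.ne_zero, hx⟩
      exact h1.isIntegral
    obtain ⟨z, hz⟩ : ∃ z : ℂ, aeval z (minpoly ℚ x) = 0 :=
      IsAlgClosed.exists_aeval_eq_zero ℂ _ (minpoly.degree_pos hxi).ne'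
    have hzP : aeval z P' = 0 := by
      obtain ⟨g, hg⟩ := minpoly.dvd ℚ x hx
      rw [hg, map_mul, hz, zero_mul]
    obtain ⟨j, ρ, a, rfl⟩ := hroot z hzP
    exact local_at (pb j) (hc j) (hQ j).symm (hloc j) hPQ x hx ⟨ρ, a, hz⟩

end Family

end Pool.Agent.P8H56.CF
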