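import Pool.Agent.P8H56.CF.Defs
import Pool.Agent.P8H56.CF.Bicomm
import Pool.Agent.Helper8K9.AV.Lin
import Pool.Agent.Helper8K9.WR.Cyc

/-!
# Frobenius operators and their adjoints
-/

open Polynomial

namespace Pool.Agent.P8H56.CF

open Pool.Agent.Helper8K9.AV

variable {K V : Type*} [Field K] [CharZero K] [AddCommGroup V] [Module K V]

lemma squarefree_map {P : ℚ[X]} (hP : Squarefree P) : Squarefree (P.map (algebraMap ℚ K)) :=
  (PerfectField.separable_iff_squarefree).1
    (((PerfectField.separable_iff_squarefree).2 hP).map)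

/-- The adjoint of an operator with the eigenvalues of absolute value `√w`. -/
theorem tate_lin {N : Submodule K V} [Module.Finite K N] {φ : Module.End K V}
    (h : ∀ x ∈ N, φ x ∈ N) {P Q : ℚ[X]}
    (hPx : ∀ x ∈ N, aeval φ (P.map (algebraMap ℚ K)) x = 0) (hPQ : IsConjugationPair P Q)
    {w : ℚ} (hw : w ≠ 0) (hz : ∀ z : ℂ, aeval z P = 0 → ‖z‖ ^ 2 = w) (B : V →ₗ[K] V →ₗ[K] K)
    (hB : ∀ x ∈ N, ∀ y ∈ N, B (φ x) (φ y) = (w : K) * B x y) {C : Set (Module.End K V)}
    (hC1 : ∀ c ∈ C, ∀ x ∈ N, c x ∈ N) (hC2 : ∀ c ∈ C, ∀ x ∈ N, c (φ x) = φ (c x))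
    (hC3 : ∀ z : Module.End K N, (∀ x, z (φ.restrict h x) = φ.restrict h (z x)) →
      ∃ c ∈ C, ∀ x : N, (z x : V) = c x) :
    SemisimpleUnder N ((⇑) '' C) ∧ HasCommutant N (fun x y => B x y) ((⇑) '' C) P Q := by
  have hPsq : Squarefree (P.map (algebraMap ℚ K)) := squarefree_map hPQ.1
  have h0 : aeval (φ.restrict h : Module.End K N) (P.map (algebraMap ℚ K)) = 0 := by
    apply LinearMap.ext
    intro x
    apply Subtype.ext
    rw [aeval_restrict h]
    exact hPx x x.2
  have hss : Module.End.IsSemisimple (φ.restrict h : Module.End K N) :=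
    Module.End.isSemisimple_of_squarefree_aeval_eq_zero hPsq h0
  have hdvd : P ∣ X * Q - Polynomial.C w := by
    refine dvd_of_roots (L := ℂ) hPQ.1 fun z hz0 => ?_
    rw [map_sub, map_mul, aeval_X, hPQ.2 z hz0, aeval_C, Complex.mul_conj', sub_eq_zero]
    have h1 := hz z hz0
    rw [eq_ratCast]
    exact_mod_cast congrArg (fun t : ℝ => (t : ℂ)) h1
  have hQx : ∀ y ∈ N, φ (aeval φ (Q.map (algebraMap ℚ K)) y) = (w : K) • y := by
    intro y hy
    obtain ⟨g, hg⟩ := hdvd
    have h1 := congrArg (Polynomial.map (algebraMap ℚ K)) hg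
    rw [Polynomial.map_sub, Polynomial.map_mul, Polynomial.map_mul, map_X, map_C] at h1
    have h2 := congrArg (fun F => aeval φ F y) h1
    beta_reduce at h2
    rw [map_sub, map_mul, aeval_X, aeval_C, mul_comm (P.map (algebraMap ℚ K)), map_mul,
      Module.End.mul_apply, hPx y hy, map_zero, LinearMap.sub_apply, Module.End.mul_apply,
      sub_eq_zero, Module.algebraMap_end_apply, eq_ratCast] at h2
    exact h2
  -- restrictions
  have hres : ∀ c ∈ C, ∃ z : Module.End K N,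
      (∀ x, z (φ.restrict h x) = φ.restrict h (z x)) ∧ ∀ x : N, (z x : V) = c x := by
    intro c hc
    refine ⟨c.restrict (hC1 c hc), fun x => ?_, fun x => rfl⟩
    apply Subtype.ext
    exact hC2 c hc x x.2
  refine ⟨?_, φ, h, hPx, ?_, ?_⟩
  · intro U hU hst
    obtain ⟨q, hq, hc⟩ := exists_compl_of_invariant hss (U.comap N.subtype) (by
      intro z hzc x hx
      obtain ⟨c, hc, hcx⟩ := hC3 z hzc
      change (z x : V) ∈ U
      rw [hcx]
      exact hst _ ⟨c, hc, rfl⟩ _ hx)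
    refine ⟨q.map N.subtype, ?_, ?_, ?_, ?_⟩
    · rintro _ ⟨x, -, rfl⟩
      exact x.2
    · rintro _ ⟨c, hcC, rfl⟩ _ ⟨x, hx, rfl⟩
      obtain ⟨z, hzc, hzx⟩ := hres c hcC
      exact ⟨z x, hq z hzc x hx, hzx x⟩
    · rw [eq_bot_iff]
      rintro _ ⟨hx1, ⟨x, hx2, rfl⟩⟩
      have h1 : x ∈ (U.comap N.subtype) ⊓ q := ⟨hx1, hx2⟩
      rw [hc.inf_eq_bot, Submodule.mem_bot] at h1
      rw [h1, map_zero]
      exact Submodule.zero_mem _
    · apply le_antisymm
      · refine sup_le hU ?_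
        rintro _ ⟨x, -, rfl⟩
        exact x.2
      · intro x hx
        have h1 : (⟨x, hx⟩ : N) ∈ (U.comap N.subtype) ⊔ q := by
          rw [hc.sup_eq_top]
          exact Submodule.mem_top
        obtain ⟨u, hu, u', hu', huu⟩ := Submodule.mem_sup.1 h1
        have h2 := congrArg Subtype.val huu
        rw [← (show ((u + u' : N) : V) = x from h2)]
        exact Submodule.add_mem _ (Submodule.mem_sup_left hu)
          (Submodule.mem_sup_right ⟨u', hu', rfl⟩)
  · intro x hx y hy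
    have h1 : aeval φ (Q.map (algebraMap ℚ K)) y ∈ N := aeval_mem h _ hy
    have h2 := hB x hx _ h1
    rw [hQx y hy, map_smul, smul_eq_mul] at h2
    exact mul_left_cancel₀ (by exact_mod_cast hw) h2
  · intro ψ hψ hcomm
    obtain ⟨f, hf⟩ := exists_poly_of_bicomm hss (ψ.restrict hψ) (by
      intro z hzc x
      obtain ⟨c, hc, hcx⟩ := hC3 z hzc
      apply Subtype.ext
      change ψ (z x : V) = (z (ψ.restrict hψ x) : V)
      rw [hcx, hcx]
      exact hcomm _ ⟨c, hc, rfl⟩ x x.2)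
    refine ⟨f, fun x hx => ?_⟩
    have h1 := congrArg Subtype.val (hf ⟨x, hx⟩)
    rw [aeval_restrict h] at h1
    exact h1

/-- Squarefree characteristic polynomials. -/
theorem charpoly_lin {A : Type*} [Ring A] [Algebra K A] [Module.Finite K A] {N : Submodule K A}
    {φ : Module.End K A} {P : ℚ[X]} (hP : Squarefree P) (hchar : HasCharpolyOn φ N P) :
    (∀ x ∈ N, aeval φ (P.map (algebraMap ℚ K)) x = 0) ∧
      ∀ ψ : Module.End K A, (∀ x ∈ N, ψ x ∈ N) → (∀ x ∈ N, ψ (φ x) = φ (ψ x)) →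
        ∃ f : K[X], ∀ x ∈ N, ψ x = aeval φ f x := by
  obtain ⟨h, hc⟩ := hchar
  have h0 : aeval (φ.restrict h) (P.map (algebraMap ℚ K)) = 0 := by
    rw [← hc]
    exact LinearMap.aeval_self_charpoly _
  refine ⟨fun x hx => ?_, fun ψ hψ hcomm => ?_⟩
  · have h1 := aeval_restrict h (P.map (algebraMap ℚ K)) ⟨x, hx⟩
    rw [h0] at h1
    exact h1.symm
  · obtain ⟨f, hf⟩ := Pool.Agent.Helper8K9.WR.exists_poly_of_comm (φ.restrict h)
      (by rw [hc]; exact squarefree_map hP) (ψ.restrict hψ) (fun x => by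
        apply Subtype.ext
        exact hcomm x x.2)
    refine ⟨f, fun x hx => ?_⟩
    have h1 := congrArg Subtype.val (hf ⟨x, hx⟩)
    rw [aeval_restrict h] at h1
    exact h1

end Pool.Agent.P8H56.CF
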