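import Pool.Agent.P8H56.CF.Aniso
import Pool.Agent.P8H56.CF.FrobLin

/-!
# Frobenius elements with squarefree characteristic polynomial
-/

open CategoryTheory AlgebraicGeometry Polynomial

universe u v

namespace Pool.Agent.P8H56.CF

open Pool.Agent.H914 Pool.Agent.H914.VarClass Pool.Agent.H914.VarClass.Obj
  Pool.Agent.H914.WeilCohomology Pool.Agent.R908 Pool.Agent.N180.Cf Pool.Agent.Helper8K9.AV
  Pool.Agent.H281R3.HT

variable {k : Type u} [Field k] {𝒱 : VarClass k} {ops : CycleOps 𝒱}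
  {W : WeilCohomology.{u, v} ops} {X : 𝒱.Obj} {D : X.Cycles}

lemma proj_transIn {x : W.H X} (hx : x ∈ transcendental W X) (j : ℕ) :
    proj (W.isInternal X) j x ∈ transIn W X j := by
  refine ⟨?_, proj_mem _ _ _⟩
  exact proj_stable (U := transcendental W X)
    (fun y hy => (gSym W (two_ne_zero : (2 : W.K) ≠ 0)).trans hy) j x hx

/-- The pairing between the transcendental cohomology in complementary degrees. -/
lemma transIn_nondeg (hD : HomEqNum W X) {i : ℕ} (hi : i ≤ 2 * X.dim) {x : W.H X}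
    (hx : x ∈ transIn W X i) (h : ∀ y ∈ transIn W X (2 * X.dim - i), W.tr X (x * y) = 0) :
    x = 0 := by
  obtain ⟨s⟩ := exists_tSplit hD
  apply W.nondeg
  intro b
  rw [s.tr_right hx.1]
  have hT : s.eT b ∈ transcendental W X := s.mem_T b
  have h3 := sum_proj (W.isInternal X) (N := 2 * X.dim + 1)
    (fun i hi => W.gr_eq_bot X i (by omega))
  have h4 := congrArg (fun F : Module.End W.K (W.H X) => F (s.eT b)) h3
  beta_reduce at h4
  rw [LinearMap.sum_apply, Module.End.one_apply] at h4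
  rw [← h4, Finset.mul_sum, map_sum]
  refine Finset.sum_eq_zero fun j _ => ?_
  by_cases hj : j = 2 * X.dim - i
  · subst hj
    exact h _ (proj_transIn hT _)
  · exact W.tr_eq_zero (W.mul_mem hx.2 (proj_mem _ _ _)) (by omega)

/-- The data for a variety satisfying the conjecture B. -/
structure Lef (W : WeilCohomology.{u, v} ops) (X : 𝒱.Obj) (D : X.Cycles)
    (Φ : Module.End W.K (W.H X)) : Prop where
  hD : X.IsCyc 1 D
  hHL : HardLefschetz W X D
  rop : ROp W X (-1) Φ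
  lam : IsLam (W.gr X) X.dim (LinearMap.mulLeft W.K (W.cl X D)) Φ

lemma exists_lef (hD : X.IsCyc 1 D) (hHL : HardLefschetz W X D) (hB : LefschetzB W X D) :
    ∃ Φ, Lef W X D Φ := by
  obtain ⟨Φ, hΦ, hLam⟩ := lefschetzB_iff_rop.1 hB
  exact ⟨Φ, hD, hHL, hΦ, hLam⟩

namespace Lef

variable {Φ : Module.End W.K (W.H X)} (h : Lef W X D Φ)

include h

lemma kopL (c : ℕ) : (LinearMap.mulLeft W.K (W.cl X D)) ^ c ∈ KOp W X X c := by
  have h1 := KOp.ofRop (rop_opAlg.pow (rop_mulLeft (W := W) h.hD) c)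
  exact KOp.cast h1 (by ring)

lemma kopΦ (c : ℕ) : Φ ^ c ∈ KOp W X X (-(c : ℤ)) := by
  have h1 := KOp.ofRop (rop_opAlg.pow h.rop c)
  exact KOp.cast h1 (by ring)

lemma hom : IsHom (W.gr X) 2 (LinearMap.mulLeft W.K (W.cl X D)) := by
  simpa using rop_opAlg.hom (rop_mulLeft (W := W) h.hD)

lemma inv {c : ℕ} (hc : c ≤ X.dim) {a : W.H X} (ha : a ∈ W.gr X (X.dim - c)) :
    (Φ ^ c) ((LinearMap.mulLeft W.K (W.cl X D) ^ c) a) = a :=
  lam_pow_L_pow h.hom W_hbd h.hHL h.lam hc ha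

lemma surj {c : ℕ} (hc : c ≤ X.dim) {b : W.H X} (hb : b ∈ W.gr X (X.dim + c)) :
    ∃ a ∈ W.gr X (X.dim - c), (LinearMap.mulLeft W.K (W.cl X D) ^ c) a = b := by
  obtain ⟨a, ha, hab⟩ := (h.hHL (X.dim - c) (by omega)).2 b
    (by rw [show 2 * X.dim - (X.dim - c) = X.dim + c by omega]; exact hb)
  rw [show X.dim - (X.dim - c) = c by omega] at hab
  exact ⟨a, ha, hab⟩

lemma sign : SignAlgebraic W X := by
  set s : Module.End W.K (W.H X) :=
    ∑ i ∈ Finset.range (2 * X.dim + 1), ((-1 : W.K) ^ i) • proj (W.isInternal X) i with hs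
  have hs' : s ∈ KOp W X X 0 := by
    refine Submodule.sum_mem _ fun i _ => Submodule.smul_mem _ _ ?_
    exact KOp.ofRop (rop_opAlg.proj_mem (W.isInternal X) W_hbd (rop_mulLeft h.hD) h.hHL h.rop
      h.lam i)
  obtain ⟨γ, hγ, hγs⟩ := mem_KOp_iff.1 hs'
  rw [add_zero] at hγ
  refine ⟨γ, hγ, fun i a ha _ => ?_⟩
  rw [hγs, hs, LinearMap.sum_apply]
  by_cases hi : i ∈ Finset.range (2 * X.dim + 1)
  · rw [Finset.sum_eq_single i]
    · rw [LinearMap.smul_apply, proj_same _ ha]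
    · intro j _ hj
      rw [LinearMap.smul_apply, proj_ne _ ha (Ne.symm hj), smul_zero]
    · intro h'
      exact absurd hi h'
  · rw [Finset.mem_range, not_lt] at hi
    rw [W.gr_eq_bot X i (by omega), Submodule.mem_bot] at ha
    subst ha
    rw [smul_zero]
    exact Finset.sum_eq_zero fun j _ => map_zero _

end Lef

/-- Frobenius and the powers of the Lefschetz operator. -/
lemma frob_Lpow {q : ℕ} {φ : W.H X →ₐ[W.K] W.H X} (hφ : IsFrobeniusLike (operatorSet W X) (W.tr X) (W.cl X D) X.dim q φ) (c : ℕ)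
    (y : W.H X) : φ ((LinearMap.mulLeft W.K (W.cl X D) ^ c) y) =
      (q : W.K) ^ c • (LinearMap.mulLeft W.K (W.cl X D) ^ c) (φ y) := by
  induction c with
  | zero => rw [pow_zero, pow_zero, one_smul]; rfl
  | succ c ih =>
    rw [pow_succ', Module.End.mul_apply, Module.End.mul_apply, LinearMap.mulLeft_apply, map_mul,
      hφ.divisor, ih, LinearMap.mulLeft_apply, smul_mul_smul_comm, ← pow_succ']

lemma frob_transIn {q : ℕ} {φ : W.H X →ₐ[W.K] W.H X}
    (hφ : IsFrobeniusLike (operatorSet W X) (W.tr X) (W.cl X D) X.dim q φ) (i : ℕ) : ∀ x ∈ transIn W X i,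
      φ.toLinearMap x ∈ transIn W X i :=
  fun _ hx => operators_transIn hφ.mem hx

/-- **Frobenius elements give conjugations.** -/
theorem hasConjugation_of_tate (hD : X.IsCyc 1 D) (hHL : HardLefschetz W X D)
    (hB : LefschetzB W X D) (hN : HomEqNum W X) {q : ℕ} {φ : W.H X →ₐ[W.K] W.H X}
    (hφ : IsFrobeniusLike (operatorSet W X) (W.tr X) (W.cl X D) X.dim q φ) {i : ℕ} (hi : i ≤ 2 * X.dim) {P Q : ℚ[X]}
    (hPQ : IsConjugationPair P Q) (hz : ∀ z : ℂ, aeval z P = 0 → ‖z‖ ^ 2 = (q : ℝ) ^ i)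
    (hT : TateFor (operatorSet W X) (transIn W X i) φ P) : HasConjugation W X i P Q := by
  obtain ⟨Φ, hL⟩ := exists_lef hD hHL hB
  have hq0 : (q : W.K) ≠ 0 := by
    have := hφ.pos
    exact_mod_cast this.ne'
  set L := LinearMap.mulLeft W.K (W.cl X D) with hLdef
  -- the operator
  obtain ⟨δ, θ, hδ, hθ, hsurj, hcomp⟩ : ∃ (δ : ℤ) (θ : Module.End W.K (W.H X)),
      0 ≤ (X.dim : ℤ) + δ ∧ θ ∈ KOp W X X δ ∧
      (∀ b ∈ transIn W X (2 * X.dim - i), ∃ y ∈ transIn W X i, θ y = b) ∧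
      (∀ x ∈ transIn W X i, ∀ y ∈ transIn W X i,
        W.tr X (φ x * θ (φ y)) = (q : W.K) ^ i * W.tr X (x * θ y)) := by
    by_cases h : i ≤ X.dim
    · obtain ⟨c, hc, rfl⟩ : ∃ c ≤ X.dim, i = X.dim - c := ⟨X.dim - i, by omega, by omega⟩
      refine ⟨c, L ^ c, by omega, hL.kopL c, ?_, ?_⟩
      · intro b hb
        rw [show 2 * X.dim - (X.dim - c) = X.dim + c by omega] at hb
        obtain ⟨a, ha, hab⟩ := hL.surj hc hb.2
        refine ⟨a, ⟨?_, ha⟩, hab⟩
        rw [← hL.inv hc ha, hab]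
        exact kop_trans (hL.kopΦ c) hb.1
      · intro x _ y _
        have h1 : W.tr X (φ x * φ ((L ^ c) y)) = (q : W.K) ^ X.dim * W.tr X (x * (L ^ c) y) := by
          rw [← map_mul, hφ.tr]
        rw [frob_Lpow hφ, mul_smul_comm, map_smul, smul_eq_mul] at h1
        have h2 : (q : W.K) ^ X.dim = (q : W.K) ^ c * (q : W.K) ^ (X.dim - c) := by
          rw [← pow_add, Nat.add_sub_cancel' hc]
        rw [h2, mul_assoc] at h1
        exact mul_left_cancel₀ (pow_ne_zero _ hq0) h1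
    · obtain ⟨c, rfl⟩ : ∃ c, i = X.dim + c := ⟨i - X.dim, by omega⟩
      have hc : c ≤ X.dim := by omega
      refine ⟨-(c : ℤ), Φ ^ c, by omega, hL.kopΦ c, ?_, ?_⟩
      · intro b hb
        rw [show 2 * X.dim - (X.dim + c) = X.dim - c by omega] at hb
        refine ⟨(L ^ c) b, ⟨kop_trans (hL.kopL c) hb.1, ?_⟩, hL.inv hc hb.2⟩
        have h1 := pow_L_mem hL.hom hb.2 c
        rwa [show X.dim - c + 2 * c = X.dim + c by omega] at h1
      · intro x _ y hy
        obtain ⟨z, hz', rfl⟩ := hL.surj hc hy.2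
        have h1 : φ z ∈ W.gr X (X.dim - c) := operators_gr hφ.mem hz'
        rw [frob_Lpow hφ, map_smul, hL.inv hc h1, hL.inv hc hz', mul_smul_comm, map_smul,
          ← map_mul, hφ.tr, smul_eq_mul, ← mul_assoc, ← pow_add, add_comm c]
  obtain ⟨γ, hγ, hγθ⟩ := mem_KOp_iff.1 hθ
  obtain ⟨p, hp⟩ := Int.eq_ofNat_of_zero_le hδ
  rw [hp] at hγ
  set C : Set (Module.End W.K (W.H X)) := {c | c ∈ operators W X ∧
    ∀ x ∈ transIn W X i, c (φ x) = φ (c x)} with hC
  have hBf := tate_lin (N := transIn W X i) (φ := φ.toLinearMap) (w := (q : ℚ) ^ i)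
    (frob_transIn hφ i) hT.1 hPQ
    (pow_ne_zero _ (by exact_mod_cast hφ.pos.ne'))
    (fun z h0 => by rw [hz z h0]; push_cast; rfl) (formL W X γ) (by
      intro x hx y hy
      rw [formL_apply, formL_apply, hγθ]
      push_cast
      exact hcomp x hx y hy) (C := C) (fun c hc x hx => operators_transIn hc.1 hx)
    (fun c hc => hc.2) (by
      intro z hzc
      obtain ⟨ψ, hψ⟩ := LinearMap.exists_extend ((transIn W X i).subtype ∘ₗ z)
      have hψ' : ∀ x (hx : x ∈ transIn W X i), ψ x = z ⟨x, hx⟩ := fun x hx =>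
        congrArg (fun F : transIn W X i →ₗ[W.K] W.H X => F ⟨x, hx⟩) hψ
      have hzφ : ∀ x (hx : x ∈ transIn W X i), ψ (φ x) = φ (ψ x) := by
        intro x hx
        rw [hψ' x hx, hψ' (φ x) (frob_transIn hφ i x hx)]
        exact congrArg Subtype.val (hzc ⟨x, hx⟩)
      obtain ⟨ψ', hψ'op, hψ'eq⟩ := hT.2 ψ (fun x hx => by
        rw [hψ' x hx]
        exact (z _).2) hzφ
      refine ⟨ψ', ⟨hψ'op, fun x hx => ?_⟩, fun x => ?_⟩
      · rw [← hψ'eq x hx, ← hψ'eq (φ x) (frob_transIn hφ i x hx)]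
        exact hzφ x hx
      · rw [← hψ'eq x x.2, hψ' x x.2])
  refine ⟨C, fun c hc => hc.1, ⇑(W.corr γ), Set.mem_iUnion.2 ⟨p, γ, hγ, rfl⟩, ?_, hBf.1, hBf.2⟩
  intro x hx h0
  apply transIn_nondeg hN hi hx
  intro b hb
  obtain ⟨y, hy, rfl⟩ := hsurj b hb
  have h1 := h0 y hy
  rw [hγθ] at h1
  exact h1

/-- Frobenius elements with squarefree characteristic polynomial. -/
theorem tateFor_of_charpoly {q : ℕ} {φ : W.H X →ₐ[W.K] W.H X}
    (hφ : IsFrobeniusLike (operatorSet W X) (W.tr X) (W.cl X D) X.dim q φ) {i : ℕ} {P : ℚ[X]} (hP : Squarefree P)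
    (hchar : HasCharpolyOn φ.toLinearMap (transIn W X i) P) : TateFor (operatorSet W X) (transIn W X i) φ P := by
  obtain ⟨h1, h2⟩ := charpoly_lin hP hchar
  refine ⟨h1, fun ψ hψ hcomm => ?_⟩
  obtain ⟨f, hf⟩ := h2 ψ hψ hcomm
  refine ⟨aeval φ.toLinearMap f, ?_, hf⟩
  exact (Algebra.adjoin_le (Set.singleton_subset_iff.2 hφ.mem) :
    Algebra.adjoin W.K {φ.toLinearMap} ≤ operators W X) (aeval_mem_adjoin_singleton W.K _)

theorem signAlgebraic_of_B (hD : X.IsCyc 1 D) (hHL : HardLefschetz W X D)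
    (hB : LefschetzB W X D) : SignAlgebraic W X := by
  obtain ⟨Φ, hL⟩ := exists_lef hD hHL hB
  exact hL.sign

end Pool.Agent.P8H56.CF
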