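import Pool.Agent.P8H56.CF.Frob
import Pool.Agent.P8H56.CF.Field

/-!
# The standard conjectures for a positive proportion of all primes
-/

open CategoryTheory AlgebraicGeometry Polynomial NumberField InfinitePlace

universe u v w

namespace Pool.Agent.P8H56.CF

open Pool.Agent.H914 Pool.Agent.H914.VarClass Pool.Agent.H914.VarClass.Obj
  Pool.Agent.H914.WeilCohomology Pool.Agent.R908 Pool.Agent.N180.Cf Pool.Agent.Helper8K9.AV
  Pool.Agent.H281R3.HT Pool.Agent.Helper11K9.Dens

variable {k : Type u} [Field k] {𝒱 : VarClass k} {ops : CycleOps 𝒱}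

/-- **The standard conjectures for one cohomology theory.** -/
theorem standard_one {W : WeilCohomology.{u, v} ops} {S : Set 𝒱.Obj}
    (h : ∀ X ∈ S, SignAlgebraic W X ∧ ∀ i ≤ 2 * X.dim, ∃ P Q : ℚ[X], IsConjugationPair P Q ∧
      LocallyConjugate W.K P Q ∧ HasConjugation W X i P Q) : StandardConjecturesFor W S := by
  refine standard_of_anisotropic (fun X hX => (h X hX).1) fun X hX => ?_
  classical
  have h2 := (h X hX).2
  choose! P Q h3 using h2
  exact anisotropic_of_conjugation (P := P) (Q := Q) (fun i hi => (h3 i hi).1.1)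
    (fun i hi => (h3 i hi).2.2) (fun i hi => (h3 i hi).2.1)

/-- **Varieties with Frobenius elements have conjugations.** -/
theorem frobeniusVarieties_subset (W : WeilCohomology.{u, v} ops) {J : Type*} (L : J → Type*)
    [∀ j, Field (L j)] : frobeniusVarieties W L ⊆ conjugationVarieties W L := by
  rintro X ⟨D, hD, hHL, hB, hN, h⟩
  refine ⟨signIn_iff.2 (signAlgebraic_of_B hD hHL hB), fun i hi => ?_⟩
  obtain ⟨P, Q, q, φ, hPQ, hL, hz, hφ, hT⟩ := h i hi
  refine ⟨P, Q, hPQ, hL, hasConjugation_of_tate hD hHL hB hN hφ hi hPQ hz ?_⟩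
  rcases hT with hT | hT
  · exact tateFor_of_charpoly hφ hPQ.1 hT
  · exact hT

/-- **The standard conjectures for a positive proportion of all primes.** -/
theorem standard_conjectures {J : Type} [Fintype J] (L : J → Type) [∀ j, Field (L j)]
    [∀ j, NumberField (L j)] (hL : ∀ j, HasComplexConjugation (L j)) :
    ∃ S : Set ℕ, HasLowerDensity S ((1 / 2 : ℝ) ^ (∑ j, nrComplexPlaces (L j))) ∧
      ∀ {k : Type u} [Field k] {𝒱 : VarClass k} {ops : CycleOps 𝒱}
        (W : WeilCohomology.{u, v} ops),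
        ((∃ ℓ ∈ S, ∃ _ : Fact ℓ.Prime, Nonempty (W.K →+* ℚ_[ℓ])) ∨
          ∀ j, nrComplexPlaces (L j) = 0) →
        StandardConjecturesFor W (conjugationVarieties W L ∪ frobeniusVarieties W L) := by
  obtain ⟨S, h1, h3⟩ := exists_good.{v} L hL
  refine ⟨S, h1, fun {k} _ 𝒱 ops W hW => standard_one ?_⟩
  intro X hX
  obtain ⟨h4, h5⟩ := Set.union_subset (le_refl _) (frobeniusVarieties_subset W L) hX
  refine ⟨signIn_iff.1 h4, fun i hi => ?_⟩
  obtain ⟨P, Q, hPQ, hr, hc⟩ := h5 i hi
  exact ⟨P, Q, hPQ, h3 W.K hW P Q hPQ hr, hc⟩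

end Pool.Agent.P8H56.CF
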